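import Mathlib

set_option autoImplicit false

/-!
Games in terms of the two sequences of moves, and reporting schemes.
-/

namespace Pool.Agent.R620.TD

open Filter

/-- `F` is a strategy of the player `p` (`p = 0` moves first): the `k`-th move depends only on the
first `k + p` moves of the opponent. -/
def Causal (p : ℕ) (F : (ℕ → Bool) → ℕ → Bool) : Prop :=
  ∀ (y y' : ℕ → Bool) (k : ℕ), (∀ i, i < k + p → y i = y' i) → F y k = F y' k

/-- Player `p` can reach `R own opp`. -/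
def WinP (p : ℕ) (R : (ℕ → Bool) → (ℕ → Bool) → Prop) : Prop :=
  ∃ F, Causal p F ∧ ∀ y, R (F y) y

/-- A way to report the digits of a sequence in the limit along a stream of bits. -/
structure Scheme where
  Conv : ℕ → Bool → (ℕ → Bool) → Prop
  est : ℕ → (ℕ → Bool) → ℕ → Bool
  Leg : (ℕ → Bool) → ℕ → (ℕ → Bool) → ℕ → ℕ → Prop
  est_loc : ∀ (i : ℕ) (s s' : ℕ → Bool) (k : ℕ), (∀ j, j < k → s j = s' j) → est i s k = est i s' k
  conv_est : ∀ i b s, Conv i b s → ∀ᶠ k in atTop, est i s k = b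
  leg_loc : ∀ (y : ℕ → Bool) (n : ℕ) (s s' : ℕ → Bool) (a b : ℕ), (∀ j, j < b → s j = s' j) → Leg y n s a b → Leg y n s' a b
  leg_ex : ∀ (y : ℕ → Bool) (n : ℕ) (s : ℕ → Bool) (a : ℕ), ∃ (s' : ℕ → Bool) (b : ℕ), a < b ∧ (∀ j, j < a → s' j = s j) ∧ Leg y n s' a b
  leg_trans : ∀ (y : ℕ → Bool) (n : ℕ) (s : ℕ → Bool) (a b c : ℕ), a < b → b < c → Leg y n s a b → Leg y n s b c → Leg y n s a c
  leg_mono : ∀ (y y' : ℕ → Bool) (n n' : ℕ) (s : ℕ → Bool) (a b : ℕ), n ≤ n' → (∀ i, i < n → y i = y' i) → Leg y' n' s a b → Leg y n s a b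
  leg_conv : ∀ (y : ℕ → Bool) (n : ℕ) (s : ℕ → Bool) (m : ℕ → ℕ), StrictMono m → (∀ k, Leg y n s (m k) (m (k + 1))) →
    ∀ i, i < n → Conv i (y i) s

namespace Scheme

theorem conv_unique (S : Scheme) {i : ℕ} {b b' : Bool} {s : ℕ → Bool} (h : S.Conv i b s)
    (h' : S.Conv i b' s) : b = b' := by
  obtain ⟨k, hk, hk'⟩ := ((S.conv_est _ _ _ h).and (S.conv_est _ _ _ h')).exists
  rw [← hk, ← hk']

/-- the digit `i` has a limit -/
def C (S : Scheme) (i : ℕ) (s : ℕ → Bool) : Prop := ∃ b, S.Conv i b s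

end Scheme

/-- The opponent of `p` is the first whose digit has no limit, or the limits satisfy `R`. -/
def Star (p : ℕ) (SO SP : Scheme) (R : (ℕ → Bool) → (ℕ → Bool) → Prop) (a b : ℕ → Bool) : Prop :=
  (∃ i, ¬ SP.C i b ∧ (∀ j, j < i → SP.C j b) ∧ (∀ j, j + p < i + 1 → SO.C j a)) ∨
    ∃ α β, (∀ i, SO.Conv i (α i) a) ∧ (∀ i, SP.Conv i (β i) b) ∧ R α β

section Up

variable (p : ℕ) (SO SP : Scheme) (F : (ℕ → Bool) → ℕ → Bool)

/-- one phase: extend the committed part of the own stream -/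
noncomputable def ext (w : ℕ → Bool) (n : ℕ) (q : (ℕ → Bool) × ℕ) : (ℕ → Bool) × ℕ :=
  ⟨(SO.leg_ex w n q.1 q.2).choose, (SO.leg_ex w n q.1 q.2).choose_spec.choose⟩

theorem ext_spec (w : ℕ → Bool) (n : ℕ) (q : (ℕ → Bool) × ℕ) :
    q.2 < (ext SO w n q).2 ∧ (∀ j, j < q.2 → (ext SO w n q).1 j = q.1 j) ∧
      SO.Leg w n (ext SO w n q).1 q.2 (ext SO w n q).2 :=
  (SO.leg_ex w n q.1 q.2).choose_spec.choose_spec

/-- the state after `n` phases -/
noncomputable def st (y : ℕ → Bool) : ℕ → (ℕ → Bool) × ℕ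
  | 0 => ⟨fun _ => false, 0⟩
  | n + 1 => ext SO (F fun l => SP.est l y (st y n).2) n (st y n)

/-- the stream played -/
noncomputable def pl (y : ℕ → Bool) (k : ℕ) : Bool := (st SO SP F y (k + 1)).1 k

theorem st_lt (y : ℕ → Bool) (n : ℕ) : (st SO SP F y n).2 < (st SO SP F y (n + 1)).2 :=
  (ext_spec SO _ n _).1

theorem st_mono (y : ℕ → Bool) : StrictMono fun n => (st SO SP F y n).2 :=
  strictMono_nat_of_lt_succ (st_lt SO SP F y)

theorem st_agree (y : ℕ → Bool) {n n' : ℕ} (h : n ≤ n') (j : ℕ) (hj : j < (st SO SP F y n).2) :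
    (st SO SP F y n').1 j = (st SO SP F y n).1 j := by
  induction n', h using Nat.le_induction with
  | base => rfl
  | succ m hm ih =>
    rw [← ih]
    exact (ext_spec SO _ m _).2.1 j (lt_of_lt_of_le hj ((st_mono SO SP F y).monotone hm))

theorem pl_agree (y : ℕ → Bool) (n j : ℕ) (hj : j < (st SO SP F y n).2) :
    pl SO SP F y j = (st SO SP F y n).1 j := by
  have h1 : j < (st SO SP F y (j + 1)).2 := lt_of_lt_of_le (Nat.lt_succ_self j)
    ((st_mono SO SP F y).id_le (j + 1))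
  rcases le_total n (j + 1) with h | h
  · exact st_agree SO SP F y h j hj
  · exact (st_agree SO SP F y h j h1).symm

theorem pl_leg (y : ℕ → Bool) (n : ℕ) :
    SO.Leg (F fun l => SP.est l y (st SO SP F y n).2) n (pl SO SP F y) (st SO SP F y n).2
      (st SO SP F y (n + 1)).2 :=
  SO.leg_loc _ _ _ _ _ _ (fun j hj => (pl_agree SO SP F y (n + 1) j hj).symm)
    (ext_spec SO _ n _).2.2

theorem st_causal (y y' : ℕ → Bool) (k : ℕ) (h : ∀ i, i < k → y i = y' i) (n : ℕ)
    (hn : ∀ j, j < n → (st SO SP F y j).2 ≤ k) : st SO SP F y n = st SO SP F y' n := by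
  induction n with
  | zero => rfl
  | succ n ih =>
    have h1 := ih fun j hj => hn j (by omega)
    have h2 := hn n (by omega)
    simp only [st]
    rw [← h1]
    congr 2
    funext l
    exact SP.est_loc l y y' _ fun j hj => h j (by omega)

theorem pl_causal : Causal p (pl SO SP F) := by
  intro y y' k h
  have h' : ∀ i, i < k → y i = y' i := fun i hi => h i (by omega)
  have h1 : k < (st SO SP F y (k + 1)).2 := lt_of_lt_of_le (Nat.lt_succ_self k)
    ((st_mono SO SP F y).id_le (k + 1))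
  classical
  have hex : ∃ n, k < (st SO SP F y n).2 := ⟨k + 1, h1⟩
  obtain ⟨N, hN, hN'⟩ : ∃ N, k < (st SO SP F y N).2 ∧ ∀ j, j < N → (st SO SP F y j).2 ≤ k :=
    ⟨Nat.find hex, Nat.find_spec hex, fun j hj => not_lt.1 (Nat.find_min hex hj)⟩
  have h2 := st_causal SO SP F y y' k h' N hN'
  rw [pl_agree SO SP F y N k hN, pl_agree SO SP F y' N k (by rw [← h2]; exact hN), h2]

theorem pl_conv (hF : Causal p F) (y β : ℕ → Bool) (i : ℕ)
    (h : ∀ j, j < i + p → SP.Conv j (β j) y) : SO.Conv i (F β i) (pl SO SP F y) := by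
  -- eventually all estimates are correct
  have h1 : ∀ᶠ k in atTop, ∀ j ∈ Finset.range (i + p), SP.est j y k = β j := by
    rw [Filter.eventually_all_finset]
    intro j hj
    exact SP.conv_est _ _ _ (h j (Finset.mem_range.1 hj))
  obtain ⟨K, hK⟩ := eventually_atTop.1 h1
  let M := max K (i + 1)
  have hm : StrictMono fun k => (st SO SP F y (M + k)).2 := by
    intro a b hab
    exact st_mono SO SP F y (by omega)
  refine SO.leg_conv (F β) (i + 1) (pl SO SP F y) _ hm (fun k => ?_) i (by omega)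
  refine SO.leg_mono _ _ (i + 1) (M + k) _ _ _ (by omega) (fun j hj => ?_)
    (pl_leg SO SP F y (M + k))
  refine (hF _ _ _ fun l hl => ?_).symm
  refine hK _ ?_ l (Finset.mem_range.2 (by omega))
  have := (st_mono SO SP F y).id_le (M + k)
  simp only [id] at this
  omega

end Up

theorem up {p : ℕ} {SO SP : Scheme} {R : (ℕ → Bool) → (ℕ → Bool) → Prop}
    (h : WinP p R) : WinP p (Star p SO SP R) := by
  obtain ⟨F, hF, hR⟩ := h
  refine ⟨pl SO SP F, pl_causal p SO SP F, fun y => ?_⟩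
  have key : ∀ i, (∀ j, j < i + p → SP.C j y) → SO.C i (pl SO SP F y) := by
    intro i hi
    choose! β hβ using hi
    exact ⟨_, pl_conv p SO SP F hF y β i hβ⟩
  by_cases hall : ∀ i, SP.C i y
  · choose β hβ using hall
    exact Or.inr ⟨F β, β, fun i => pl_conv p SO SP F hF y β i fun j _ => hβ j, hβ, hR β⟩
  · left
    classical
    push Not at hall
    refine ⟨Nat.find hall, Nat.find_spec hall, fun j hj => ?_, fun j hj => ?_⟩
    · exact not_not.1 (Nat.find_min hall hj)
    · exact key j fun l hl => not_not.1 (Nat.find_min hall (by omega))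

/-! ### The other direction -/

/-- Dependent choice of longer and longer finite sequences. -/
theorem exists_chain {Inv : (ℕ → Bool) → ℕ → Prop}
    {St : ℕ → (ℕ → Bool) → ℕ → (ℕ → Bool) → ℕ → Prop} (y0 : ℕ → Bool) (m0 : ℕ) (h0 : Inv y0 m0)
    (step : ∀ i y m, Inv y m → ∃ y' m', m < m' ∧ (∀ k, k < m → y' k = y k) ∧ Inv y' m' ∧
      St i y m y' m') :
    ∃ (Y : ℕ → ℕ → Bool) (M : ℕ → ℕ), Y 0 = y0 ∧ M 0 = m0 ∧ (∀ i, M i < M (i + 1)) ∧
      (∀ i k, k < M i → Y (i + 1) k = Y i k) ∧ (∀ i, Inv (Y i) (M i)) ∧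
      ∀ i, St i (Y i) (M i) (Y (i + 1)) (M (i + 1)) := by
  choose! y' m' h1 h2 h3 h4 using step
  let Q : ℕ → (ℕ → Bool) × ℕ := fun n => Nat.rec (y0, m0) (fun i q => (y' i q.1 q.2, m' i q.1 q.2)) n
  have hQ : ∀ i, Inv (Q i).1 (Q i).2 := by
    intro i
    induction i with
    | zero => exact h0
    | succ i ih => exact h3 i _ _ ih
  exact ⟨fun i => (Q i).1, fun i => (Q i).2, rfl, rfl, fun i => h1 i _ _ (hQ i),
    fun i k hk => h2 i _ _ (hQ i) k hk, hQ, fun i => h4 i _ _ (hQ i)⟩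

/-- the limit of a chain -/
theorem exists_limit {Y : ℕ → ℕ → Bool} {M : ℕ → ℕ} (hM : ∀ i, M i < M (i + 1))
    (hY : ∀ i k, k < M i → Y (i + 1) k = Y i k) :
    ∃ z : ℕ → Bool, ∀ i k, k < M i → z k = Y i k := by
  have hmono : StrictMono M := strictMono_nat_of_lt_succ hM
  have hag : ∀ i i', i ≤ i' → ∀ k, k < M i → Y i' k = Y i k := by
    intro i i' h
    induction i', h using Nat.le_induction with
    | base => intro k _; rfl
    | succ m hm ih =>
      intro k hk
      rw [hY m k (lt_of_lt_of_le hk (hmono.monotone hm)), ih k hk]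
  refine ⟨fun k => Y (k + 1) k, fun i k hk => ?_⟩
  have h1 : k < M (k + 1) := lt_of_lt_of_le (Nat.lt_succ_self k) (hmono.id_le (k + 1))
  rcases le_total i (k + 1) with h | h
  · exact hag i _ h k hk
  · exact (hag _ i h k h1).symm

/-- the stream is legal for the first `n` digits of `β`, from the time `m` on -/
def LegInf (S : Scheme) (β : ℕ → Bool) (n : ℕ) (y : ℕ → Bool) (m : ℕ) : Prop :=
  ∃ t : ℕ → ℕ, StrictMono t ∧ t 0 = m ∧ ∀ k, S.Leg β n y (t k) (t (k + 1))

theorem LegInf.conv {S : Scheme} {β : ℕ → Bool} {n : ℕ} {y : ℕ → Bool} {m : ℕ}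
    (h : LegInf S β n y m) (i : ℕ) (hi : i < n) : S.Conv i (β i) y := by
  obtain ⟨t, h1, -, h2⟩ := h
  exact S.leg_conv β n y t h1 h2 i hi

theorem leg_iter {S : Scheme} {β : ℕ → Bool} {n : ℕ} {y : ℕ → Bool} {t : ℕ → ℕ}
    (ht : StrictMono t) (h : ∀ k, S.Leg β n y (t k) (t (k + 1))) (j : ℕ) (hj : 0 < j) :
    S.Leg β n y (t 0) (t j) := by
  induction j, hj using Nat.le_induction with
  | base => exact h 0
  | succ m hm ih =>
    exact S.leg_trans _ _ _ _ _ _ (ht (by omega)) (ht (by omega)) ih (h m)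

section Down

variable {p : ℕ} {SO SP : Scheme} {R : (ℕ → Bool) → (ℕ → Bool) → Prop}
  {G : (ℕ → Bool) → ℕ → Bool}

/-- if the opponent's digits up to the `n`-th own digit converge, then the own digit converges -/
theorem own_conv (hR : ∀ y, Star p SO SP R (G y) y) (n : ℕ) (y : ℕ → Bool)
    (h : ∀ j, j < n + p → SP.C j y) : SO.C n (G y) := by
  rcases hR y with ⟨i, h1, h2, h3⟩ | ⟨α, β, h1, -, -⟩
  · have hi : ¬ i < n + p := fun hi => h1 (h i hi)
    exact h3 n (by omega)
  · exact ⟨_, h1 n⟩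

theorem claim (hG : Causal p G) (hR : ∀ y, Star p SO SP R (G y) y) (n : ℕ) (β y : ℕ → Bool)
    (m : ℕ) :
    ∃ (y' : ℕ → Bool) (m' : ℕ) (c : Bool), m < m' ∧ (∀ k, k < m → y' k = y k) ∧
      SP.Leg β (n + p) y' m m' ∧
      ∀ z : ℕ → Bool, (∀ k, k < m' → z k = y' k) → LegInf SP β (n + p) z m' →
        SO.Conv n c (G z) := by
  by_contra hcon
  push Not at hcon
  -- a first legal step
  obtain ⟨y1, m1, h1, h2, h3⟩ := SP.leg_ex β (n + p) y m
  -- the chain
  have step : ∀ (i : ℕ) (u : ℕ → Bool) (a : ℕ),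
      (m < a ∧ (∀ k, k < m → u k = y k) ∧ SP.Leg β (n + p) u m a) →
      ∃ u' a', a < a' ∧ (∀ k, k < a → u' k = u k) ∧
        (m < a' ∧ (∀ k, k < m → u' k = y k) ∧ SP.Leg β (n + p) u' m a') ∧
        (SP.Leg β (n + p) u' a a' ∧ ∃ k, a ≤ k ∧ k + p ≤ a' ∧ SO.est n (G u') k = (i % 2 == 0)) := by
    rintro i u a ⟨ha, hu, hleg⟩
    obtain ⟨z, hz1, hz2, hz3⟩ := hcon u a (!(i % 2 == 0)) ha hu hleg
    obtain ⟨t, ht1, ht2, ht3⟩ := hz2
    obtain ⟨c, hc⟩ : SO.C n (G z) := own_conv hR n z fun j hj =>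
      ⟨_, SP.leg_conv β (n + p) z t ht1 ht3 j hj⟩
    have hc' : c = (i % 2 == 0) := by
      have : c ≠ !(i % 2 == 0) := by
        rintro rfl
        exact hz3 hc
      revert this
      cases c <;> cases (i % 2 == 0) <;> simp
    subst hc'
    obtain ⟨k, hk1, hk2⟩ := ((SO.conv_est _ _ _ hc).and (eventually_ge_atTop a)).exists
    have h5 : k + p + 1 ≤ t (k + p + 1) := ht1.id_le _
    have h6 : SP.Leg β (n + p) z a (t (k + p + 1)) := by
      rw [← ht2]
      exact leg_iter ht1 ht3 _ (by omega)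
    have h7 : a < t (k + p + 1) := by
      rw [← ht2]
      exact ht1 (by omega)
    refine ⟨z, t (k + p + 1), h7, hz1, ⟨by omega, fun k hk => ?_, ?_⟩, h6, k, hk2, by omega, hk1⟩
    · rw [hz1 k (by omega), hu k hk]
    · refine SP.leg_trans _ _ _ _ _ _ ha h7 ?_ h6
      exact SP.leg_loc _ _ _ _ _ _ (fun j hj => (hz1 j hj).symm) hleg
  obtain ⟨Y, M, hY0, hM0, hM, hY, -, hS⟩ := exists_chain y1 m1 ⟨h1, h2, h3⟩ step
  obtain ⟨z, hz⟩ := exists_limit hM hY
  have hmono : StrictMono M := strictMono_nat_of_lt_succ hM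
  have hleg : ∀ i, SP.Leg β (n + p) z (M i) (M (i + 1)) := fun i =>
    SP.leg_loc _ _ _ _ _ _ (fun j hj => (hz (i + 1) j hj).symm) (hS i).1
  obtain ⟨c, hc⟩ : SO.C n (G z) := own_conv hR n z fun j hj =>
    ⟨_, SP.leg_conv β (n + p) z M hmono hleg j hj⟩
  obtain ⟨K, hK⟩ := eventually_atTop.1 (SO.conv_est _ _ _ hc)
  have hest : ∀ i, K ≤ M i → c = (i % 2 == 0) := by
    intro i hi
    obtain ⟨k, hk1, hk2, hk3⟩ := (hS i).2
    rw [← hk3, ← hK k (by omega)]
    refine SO.est_loc _ _ _ _ fun j hj => hG _ _ _ fun l hl => ?_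
    exact hz (i + 1) l (by omega)
  have hK1 : K ≤ M (2 * K) := by
    have := hmono.id_le (2 * K)
    simp only [id] at this
    omega
  have hK2 : K ≤ M (2 * K + 1) := by
    have := hmono.id_le (2 * K + 1)
    simp only [id] at this
    omega
  have e1 := hest _ hK1
  have e2 := hest _ hK2
  rw [e1] at e2
  have q1 : (2 * K) % 2 = 0 := by omega
  have q2 : (2 * K + 1) % 2 = 1 := by omega
  rw [q1, q2] at e2
  exact absurd e2 (by decide)

/-- the first `N` values of `β` -/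
def trunc (β : ℕ → Bool) (N : ℕ) (i : ℕ) : Bool := if i < N then β i else false

theorem trunc_eq {β β' : ℕ → Bool} {N : ℕ} (h : ∀ i, i < N → β i = β' i) :
    trunc β N = trunc β' N := by
  funext i
  unfold trunc
  split_ifs with hi
  · exact h i hi
  · rfl

theorem down (hG : Causal p G) (hR : ∀ y, Star p SO SP R (G y) y) : WinP p R := by
  choose ny nm nc h1 h2 h3 h4 using claim hG hR
  -- the state: stream, time
  let D : (ℕ → Bool) → ℕ → (ℕ → Bool) × ℕ := fun β n =>
    Nat.rec (fun _ => false, 0) (fun n q => (ny n (trunc β (n + p)) q.1 q.2,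
      nm n (trunc β (n + p)) q.1 q.2)) n
  let F : (ℕ → Bool) → ℕ → Bool := fun β n => nc n (trunc β (n + p)) (D β n).1 (D β n).2
  have hD : ∀ β β' n, (∀ i, i < n + p → β i = β' i) → D β n = D β' n := by
    intro β β' n
    induction n with
    | zero => intro _; rfl
    | succ n ih =>
      intro h
      have e1 := ih fun i hi => h i (by omega)
      have e2 : trunc β (n + p) = trunc β' (n + p) := trunc_eq fun i hi => h i (by omega)
      change (ny n (trunc β (n + p)) (D β n).1 (D β n).2, nm n (trunc β (n + p)) (D β n).1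
        (D β n).2) = (ny n (trunc β' (n + p)) (D β' n).1 (D β' n).2, nm n (trunc β' (n + p))
        (D β' n).1 (D β' n).2)
      rw [e1, e2]
  refine ⟨F, fun β β' n h => ?_, fun β => ?_⟩
  · change nc n (trunc β (n + p)) (D β n).1 (D β n).2 = nc n (trunc β' (n + p)) (D β' n).1
      (D β' n).2
    rw [hD β β' n h, trunc_eq h]
  · have hM : ∀ n, (D β n).2 < (D β (n + 1)).2 := fun n => h1 n (trunc β (n + p)) _ _
    have hY : ∀ n k, k < (D β n).2 → (D β (n + 1)).1 k = (D β n).1 k := fun n k hk =>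
      h2 n (trunc β (n + p)) _ _ k hk
    obtain ⟨z, hz⟩ := exists_limit (Y := fun n => (D β n).1) (M := fun n => (D β n).2) hM hY
    have hmono : StrictMono fun n => (D β n).2 := strictMono_nat_of_lt_succ hM
    have hleg : ∀ n, SP.Leg β (n + p) z (D β n).2 (D β (n + 1)).2 := by
      intro n
      refine SP.leg_loc _ _ _ _ _ _ (fun j hj => (hz (n + 1) j hj).symm) ?_
      refine SP.leg_mono _ _ (n + p) (n + p) _ _ _ le_rfl (fun i hi => ?_)
        (h3 n (trunc β (n + p)) (D β n).1 (D β n).2)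
      unfold trunc
      rw [if_pos hi]
    have hinf : ∀ n N, N ≤ n + p → LegInf SP β N z (D β n).2 := by
      intro n N hN
      refine ⟨fun k => (D β (n + k)).2, fun a b hab => hmono (by omega), rfl, fun k => ?_⟩
      exact SP.leg_mono _ _ _ _ _ _ _ (by omega) (fun _ _ => rfl) (hleg (n + k))
    have hP : ∀ i, SP.Conv i (β i) z := fun i => (hinf (i + 1) (i + 1) (by omega)).conv i (by omega)
    have hO : ∀ n, SO.Conv n (F β n) (G z) := by
      intro n
      refine h4 n (trunc β (n + p)) (D β n).1 (D β n).2 z (fun k hk => hz (n + 1) k hk) ?_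
      obtain ⟨t, ht1, ht2, ht3⟩ := hinf (n + 1) (n + p) (by omega)
      refine ⟨t, ht1, ht2, fun k => ?_⟩
      refine SP.leg_mono _ _ _ _ _ _ _ le_rfl (fun i hi => ?_) (ht3 k)
      unfold trunc
      rw [if_pos hi]
    rcases hR z with ⟨i, hi, -⟩ | ⟨α', β', e1, e2, e3⟩
    · exact absurd ⟨_, hP i⟩ hi
    · have q1 : α' = F β := funext fun i => SO.conv_unique (e1 i) (hO i)
      have q2 : β' = β := funext fun i => SP.conv_unique (e2 i) (hP i)
      rw [q1, q2] at e3
      exact e3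

end Down

/-- The game with the payoff `Star p SO SP R` has the same winner as the game with payoff `R`. -/
theorem winP_star {p : ℕ} {SO SP : Scheme} {R : (ℕ → Bool) → (ℕ → Bool) → Prop} :
    WinP p (Star p SO SP R) ↔ WinP p R :=
  ⟨fun ⟨_, hG, hR⟩ => down hG hR, up⟩

end Pool.Agent.R620.TD
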