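import Pool.Agent.R620.TD.Fil

set_option autoImplicit false

namespace Pool.Agent.R620.TD

open Filter Topology Pool.Agent.H685R3

/-- `S` has asymptotic density zero. -/
def DensityZero (S : Set ℕ) : Prop :=
  Tendsto (fun N : ℕ => ((S ∩ Set.Iio N).ncard : ℝ) / N) atTop (𝓝 0)

theorem ncard_mono {S T : Set ℕ} (h : S ⊆ T) (N : ℕ) :
    (S ∩ Set.Iio N).ncard ≤ (T ∩ Set.Iio N).ncard :=
  Set.ncard_le_ncard (Set.inter_subset_inter_left _ h)
    ((Set.finite_Iio N).subset Set.inter_subset_right)

theorem DensityZero.mono {S T : Set ℕ} (hT : DensityZero T) (h : S ⊆ T) : DensityZero S := by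
  refine squeeze_zero (fun N => by positivity) (fun N => ?_) hT
  exact div_le_div_of_nonneg_right (by exact_mod_cast ncard_mono h N) (Nat.cast_nonneg N)

theorem DensityZero.union {S T : Set ℕ} (hS : DensityZero S) (hT : DensityZero T) :
    DensityZero (S ∪ T) := by
  have h := hS.add hT
  rw [add_zero] at h
  refine squeeze_zero (fun N => by positivity) (fun N => ?_) h
  rw [← add_div]
  refine div_le_div_of_nonneg_right ?_ (Nat.cast_nonneg N)
  rw [Set.union_inter_distrib_right]
  exact_mod_cast Set.ncard_union_le _ _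

theorem DensityZero.finite {S : Set ℕ} (hS : S.Finite) : DensityZero S := by
  have h : Tendsto (fun N : ℕ => (S.ncard : ℝ) / N) atTop (𝓝 0) :=
    tendsto_const_div_atTop_nhds_zero_nat _
  refine squeeze_zero (fun N => by positivity) (fun N => ?_) h
  refine div_le_div_of_nonneg_right ?_ (Nat.cast_nonneg N)
  exact_mod_cast Set.ncard_le_ncard Set.inter_subset_left hS

/-- the filter of the sets whose complement has density zero -/
def dens : Filter ℕ where
  sets := {S | DensityZero Sᶜ}
  univ_sets := by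
    show DensityZero (Set.univᶜ)
    rw [Set.compl_univ]
    exact DensityZero.finite Set.finite_empty
  sets_of_superset := fun {S T} hS h => DensityZero.mono hS (Set.compl_subset_compl.2 h)
  inter_sets := fun {S T} hS hT => by
    show DensityZero ((S ∩ T)ᶜ)
    rw [Set.compl_inter]
    exact DensityZero.union hS hT

theorem mem_dens {S : Set ℕ} : S ∈ dens ↔ DensityZero Sᶜ := Iff.rfl

theorem dens_le : dens ≤ cofinite := by
  intro S hS
  rw [mem_cofinite] at hS
  exact DensityZero.finite hS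

/-- the columns -/
def DC (i : ℕ) : Set ℕ := {n | n % 2 = i % 2 ∧ padicValNat 2 (n / 2 + 1) = i / 2}

theorem DC_disj (i j : ℕ) (h : i ≠ j) : Disjoint (DC i) (DC j) := by
  rw [Set.disjoint_left]
  rintro n ⟨h1, h2⟩ ⟨h3, h4⟩
  apply h
  omega

theorem DC_count (i N : ℕ) : N / 2 ^ (i / 2 + 2) ≤ (DC i ∩ Set.Iio N).ncard + 1 := by
  set j := i / 2 with hj
  have hfin : (DC i ∩ Set.Iio N).Finite := (Set.finite_Iio N).subset Set.inter_subset_right
  let g : ℕ → ℕ := fun m => 2 * (2 ^ j * (2 * m + 1) - 1) + i % 2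
  have hpos : 0 < 2 ^ j := by positivity
  have hg : ∀ m, g m ∈ DC i := by
    intro m
    have h1 : 1 ≤ 2 ^ j * (2 * m + 1) := Nat.mul_pos hpos (by omega)
    refine ⟨by simp only [g]; omega, ?_⟩
    have h2 : g m / 2 + 1 = 2 ^ j * (2 * m + 1) := by
      simp only [g]
      omega
    rw [h2, padicValNat.mul (by positivity) (by omega), padicValNat.prime_pow,
      padicValNat.eq_zero_of_not_dvd (by omega)]
    omega
  have hginj : Function.Injective g := by
    intro a b hab
    simp only [g] at hab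
    have h1 : 1 ≤ 2 ^ j * (2 * a + 1) := Nat.mul_pos hpos (by omega)
    have h2 : 1 ≤ 2 ^ j * (2 * b + 1) := Nat.mul_pos hpos (by omega)
    have h3 : 2 ^ j * (2 * a + 1) = 2 ^ j * (2 * b + 1) := by omega
    have h4 := Nat.eq_of_mul_eq_mul_left hpos h3
    omega
  have hlt : ∀ m, m < N / 2 ^ (j + 2) - 1 → g m < N := by
    intro m hm
    have h1 : (m + 2) * 2 ^ (j + 2) ≤ N := by
      have : m + 2 ≤ N / 2 ^ (j + 2) := by omega
      exact (Nat.le_div_iff_mul_le (by positivity)).1 this
    have h2 : 2 ^ (j + 2) = 4 * 2 ^ j := by ring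
    rw [h2] at h1
    have h3 : 2 ^ j * (2 * m + 1) = 2 * (m * 2 ^ j) + 2 ^ j := by ring
    simp only [g]
    rw [h3]
    have h4 : (m + 2) * (4 * 2 ^ j) = 4 * (m * 2 ^ j) + 8 * 2 ^ j := by ring
    omega
  have h5 : ((Finset.range (N / 2 ^ (j + 2) - 1)).image g : Set ℕ) ⊆ DC i ∩ Set.Iio N := by
    intro x hx
    simp only [Finset.coe_image, Finset.coe_range, Set.mem_image, Set.mem_Iio] at hx
    obtain ⟨m, hm, rfl⟩ := hx
    exact ⟨hg m, hlt m hm⟩
  have h6 := Set.ncard_le_ncard h5 hfin
  rw [Set.ncard_coe_finset, Finset.card_image_of_injective _ hginj, Finset.card_range] at h6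
  omega

/-- the number of places below `n` in `DC i` where `x` is `b` -/
noncomputable def cnt (i : ℕ) (x : ℕ → Bool) (b : Bool) (n : ℕ) : ℕ :=
  ({m | m ∈ DC i ∧ x m = b} ∩ Set.Iio n).ncard

theorem cnt_add (i : ℕ) (x : ℕ → Bool) (b : Bool) (n : ℕ) :
    (DC i ∩ Set.Iio n).ncard ≤ cnt i x b n + cnt i x (!b) n := by
  refine le_trans (Set.ncard_le_ncard ?_ ?_) (Set.ncard_union_le _ _)
  · rintro m ⟨h1, h2⟩
    by_cases h : x m = b
    · exact Or.inl ⟨⟨h1, h⟩, h2⟩
    · refine Or.inr ⟨⟨h1, ?_⟩, h2⟩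
      revert h
      cases x m <;> cases b <;> simp
  · exact (Set.finite_Iio n).subset (Set.union_subset Set.inter_subset_right
      Set.inter_subset_right)

theorem cnt_lt {i : ℕ} {x : ℕ → Bool} {b : Bool} (hx : Lim dens (DC i) b x) :
    ∀ᶠ n in atTop, cnt i x (!b) n < cnt i x b n := by
  have h0 : DensityZero {m | m ∈ DC i ∧ x m = !b} := by
    refine DensityZero.mono (mem_dens.1 hx) ?_
    rintro m ⟨h1, h2⟩ h3
    have := h3 h1
    rw [h2] at this
    revert this
    cases b <;> simp
  set P := 2 ^ (i / 2) with hP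
  have hpos : 0 < P := by positivity
  have h1 : ∀ᶠ n : ℕ in atTop,
      ((({m | m ∈ DC i ∧ x m = !b} ∩ Set.Iio n).ncard : ℕ) : ℝ) / n < 1 / (16 * P) :=
    h0.eventually (gt_mem_nhds (by positivity))
  filter_upwards [h1, eventually_ge_atTop (16 * P)] with n h2 h3
  have hn : 0 < n := lt_of_lt_of_le (by positivity) h3
  have h4 : cnt i x (!b) n * (16 * P) < n := by
    have hn' : (0 : ℝ) < n := by exact_mod_cast hn
    have hP' : (0 : ℝ) < 16 * P := by positivity
    rw [div_lt_div_iff₀ hn' hP'] at h2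
    have h5 : ((cnt i x (!b) n : ℕ) : ℝ) * (16 * P) < 1 * n := h2
    rw [one_mul] at h5
    exact_mod_cast h5
  have h5 := cnt_add i x b n
  have h6 := DC_count i n
  have h7 : 2 ^ (i / 2 + 2) = 4 * P := by
    rw [hP]
    ring
  rw [h7] at h6
  have h8 : n < 4 * P * (n / (4 * P) + 1) := Nat.lt_mul_div_succ n (by positivity)
  have h9 : 4 ≤ n / (4 * P) := (Nat.le_div_iff_mul_le (by positivity)).2 (by linarith)
  have h10 : 4 * cnt i x (!b) n < n / (4 * P) + 1 := by
    by_contra hc
    push Not at hc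
    have : 4 * P * (n / (4 * P) + 1) ≤ 4 * P * (4 * cnt i x (!b) n) := Nat.mul_le_mul_left _ hc
    have e : 4 * P * (4 * cnt i x (!b) n) = cnt i x (!b) n * (16 * P) := by ring
    omega
  omega

theorem exists_est_dens (i : ℕ) :
    ∃ e : List Bool → Bool, ∀ x b, Lim dens (DC i) b x → ∀ᶠ n in atTop, e (hist x n) = b := by
  classical
  refine ⟨fun h => decide (cnt i (fun m => h.getD m false) false h.length <
    cnt i (fun m => h.getD m false) true h.length), fun x b hx => ?_⟩
  have key : ∀ n b, cnt i (fun m => (hist x n).getD m false) b (hist x n).length = cnt i x b n := by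
    intro n b
    have hlen : (hist x n).length = n := by simp [hist]
    unfold cnt
    rw [hlen]
    congr 1
    ext m
    constructor
    · rintro ⟨⟨h1, h2⟩, h3⟩
      refine ⟨⟨h1, ?_⟩, h3⟩
      rw [← h2]
      exact (hist_getD _ h3).symm
    · rintro ⟨⟨h1, h2⟩, h3⟩
      refine ⟨⟨h1, ?_⟩, h3⟩
      rw [← h2]
      exact hist_getD _ h3
  filter_upwards [cnt_lt hx] with n hn
  beta_reduce
  rw [key, key]
  cases b with
  | true => exact decide_eq_true hn
  | false => exact decide_eq_false (not_lt.2 hn.le)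

theorem dens_wins (A : Set (ℕ → Bool)) :
    (WinsI (LimitPayoff dens DC A) ↔ WinsI A) ∧ (WinsII (LimitPayoff dens DC A) ↔ WinsII A) :=
  limitPayoff_wins dens_le (fun _ _ h => h.1) DC_disj exists_est_dens A

end Pool.Agent.R620.TD
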