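import Pool.Agent.R620.TD.Game

set_option autoImplicit false

namespace Pool.Agent.R620.TD

open Filter Pool.Agent.H685R3

/-- `x` has the limit `b` along `C`, with respect to the filter `f`. -/
def Lim (f : Filter ℕ) (C : Set ℕ) (b : Bool) (x : ℕ → Bool) : Prop :=
  ∀ᶠ n in f, n ∈ C → x n = b

/-- The payoff set given by the limits along the sets `C i`: the sequence of the limits exists and
is in `A`, or the first `i` for which there is no limit is odd. -/
def LimitPayoff (f : Filter ℕ) (C : ℕ → Set ℕ) (A : Set (ℕ → Bool)) : Set (ℕ → Bool) :=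
  {x | (∃ y ∈ A, ∀ i, Lim f (C i) (y i) x) ∨
    ∃ i, i % 2 = 1 ∧ (¬ ∃ b, Lim f (C i) b x) ∧ ∀ j, j < i → ∃ b, Lim f (C j) b x}

theorem exists_phase {m : ℕ → ℕ} (hm : StrictMono m) {k : ℕ} (hk : m 0 ≤ k) :
    ∃ j, m j ≤ k ∧ k < m (j + 1) := by
  classical
  have hex : ∃ j, k < m (j + 1) := ⟨k, by
    have := hm.id_le (k + 1)
    simp only [id] at this
    omega⟩
  refine ⟨Nat.find hex, ?_, Nat.find_spec hex⟩
  rcases Nat.eq_zero_or_pos (Nat.find hex) with h | h
  · rw [h]
    exact hk
  · have h1 := Nat.find_min hex (Nat.sub_lt h Nat.one_pos)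
    rw [Nat.sub_add_cancel h] at h1
    exact not_lt.1 h1

/-- the stream `s` as a play, with zeros for the other player -/
def pad (q : ℕ) (s : ℕ → Bool) (n : ℕ) : Bool := if n % 2 = q then s (n / 2) else false

/-- The scheme given by a filter, columns and estimators. -/
def fs (f : Filter ℕ) (C : ℕ → Set ℕ) (e : ℕ → List Bool → Bool) (hf : f ≤ cofinite)
    (hpar : ∀ i, ∀ n ∈ C i, n % 2 = i % 2) (hdis : ∀ i j, i ≠ j → Disjoint (C i) (C j))
    (he : ∀ i x b, Lim f (C i) b x → ∀ᶠ n in atTop, e i (hist x n) = b) (q : ℕ) (hq : q ≤ 1) :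
    Scheme where
  Conv i b s := Lim f (C (2 * i + q)) b (pad q s)
  est i s k := e (2 * i + q) (hist (pad q s) (2 * k + q))
  Leg y n s a b := ∀ k, a ≤ k → k < b → ∀ l, l < n → 2 * k + q ∈ C (2 * l + q) → s k = y l
  est_loc := by
    intro i s s' k h
    have : hist (pad q s) (2 * k + q) = hist (pad q s') (2 * k + q) := by
      refine hist_congr fun j hj => ?_
      unfold pad
      split_ifs with hj2
      · exact h _ (by omega)
      · rfl
    simp only [this]
  conv_est := by
    intro i b s h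
    have h1 : Tendsto (fun k => 2 * k + q) atTop atTop :=
      tendsto_atTop_mono (fun k => (by show k ≤ 2 * k + q; omega)) tendsto_id
    exact h1.eventually (he _ _ _ h)
  leg_loc := by
    intro y n s s' a b h hl k h1 h2 l h3 h4
    rw [← h k h2]
    exact hl k h1 h2 l h3 h4
  leg_ex := by
    intro y n s a
    classical
    by_cases hex : ∃ l, l < n ∧ 2 * a + q ∈ C (2 * l + q)
    · obtain ⟨l, hl, hl2⟩ := hex
      refine ⟨Function.update s a (y l), a + 1, by omega, fun j hj => ?_, ?_⟩
      · rw [Function.update_of_ne (by omega)]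
      · intro k h1 h2 l' h3 h4
        have hk : k = a := by omega
        subst hk
        rw [Function.update_self]
        by_cases hll : l = l'
        · rw [hll]
        · exact absurd h4 (Set.disjoint_left.1 (hdis (2 * l + q) (2 * l' + q) (by omega)) hl2)
    · refine ⟨s, a + 1, by omega, fun _ _ => rfl, ?_⟩
      intro k h1 h2 l' h3 h4
      have hk : k = a := by omega
      subst hk
      exact absurd ⟨l', h3, h4⟩ hex
  leg_trans := by
    intro y n s a b c _ _ h1 h2 k h3 h4 l h5 h6
    rcases lt_or_ge k b with h | h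
    · exact h1 k h3 h l h5 h6
    · exact h2 k h h4 l h5 h6
  leg_mono := by
    intro y y' n n' s a b hn hy h k h1 h2 l h3 h4
    rw [hy l h3]
    exact h k h1 h2 l (by omega) h4
  leg_conv := by
    intro y n s m hm hleg i hi
    refine hf ?_
    rw [mem_cofinite]
    refine (Set.finite_lt_nat (2 * m 0 + q)).subset ?_
    intro x hx
    by_contra hx2
    apply hx
    intro hxC
    have hp := hpar _ _ hxC
    have hp2 : x % 2 = q := by omega
    have hk : m 0 ≤ x / 2 := by
      simp only [Set.mem_ofPred_eq] at hx2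
      omega
    obtain ⟨j, h1, h2⟩ := exists_phase hm hk
    unfold pad
    rw [if_pos hp2]
    refine hleg j _ h1 h2 i hi ?_
    have : 2 * (x / 2) + q = x := by omega
    rw [this]
    exact hxC

section

variable {f : Filter ℕ} {C : ℕ → Set ℕ}

theorem lim_pad (hpar : ∀ i, ∀ n ∈ C i, n % 2 = i % 2) {q : ℕ} (hq : q ≤ 1) (i : ℕ) (b : Bool)
    (x : ℕ → Bool) :
    Lim f (C (2 * i + q)) b (pad q fun k => x (2 * k + q)) ↔ Lim f (C (2 * i + q)) b x := by
  have key : ∀ n, n ∈ C (2 * i + q) → pad q (fun k => x (2 * k + q)) n = x n := by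
    intro n hn
    have hp := hpar _ _ hn
    have hp2 : n % 2 = q := by omega
    have e1 : 2 * (n / 2) + q = n := by omega
    unfold pad
    rw [if_pos hp2]
    beta_reduce
    rw [e1]
  refine Filter.eventually_congr (Eventually.of_forall fun n => ?_)
  constructor
  · intro h hn
    rw [← key n hn]
    exact h hn
  · intro h hn
    rw [key n hn]
    exact h hn

theorem limitPayoff_eq {e : ℕ → List Bool → Bool} (hf : f ≤ cofinite)
    (hpar : ∀ i, ∀ n ∈ C i, n % 2 = i % 2) (hdis : ∀ i j, i ≠ j → Disjoint (C i) (C j))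
    (he : ∀ i x b, Lim f (C i) b x → ∀ᶠ n in atTop, e i (hist x n) = b) (A : Set (ℕ → Bool)) :
    StarSet (fs f C e hf hpar hdis he 0 (by omega)) (fs f C e hf hpar hdis he 1 (by omega)) A =
      LimitPayoff f C A := by
  have c0 : ∀ i b x, (fs f C e hf hpar hdis he 0 (by omega)).Conv i b (fun k => x (2 * k)) ↔
      Lim f (C (2 * i)) b x := fun i b x => lim_pad (f := f) hpar (q := 0) (by omega) i b x
  have c1 : ∀ i b x, (fs f C e hf hpar hdis he 1 (by omega)).Conv i b (fun k => x (2 * k + 1)) ↔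
      Lim f (C (2 * i + 1)) b x := fun i b x => lim_pad (f := f) hpar (q := 1) (by omega) i b x
  ext x
  constructor
  · rintro (⟨i, h1, h2, h3⟩ | ⟨α, β, h1, h2, h3⟩)
    · right
      refine ⟨2 * i + 1, by omega, ?_, fun j hj => ?_⟩
      · rintro ⟨b, hb⟩
        exact h1 ⟨b, (c1 i b x).2 hb⟩
      · rcases Nat.even_or_odd' j with ⟨j', rfl | rfl⟩
        · obtain ⟨b, hb⟩ := h3 j' (by omega)
          exact ⟨b, (c0 j' b x).1 hb⟩
        · obtain ⟨b, hb⟩ := h2 j' (by omega)
          exact ⟨b, (c1 j' b x).1 hb⟩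
    · left
      refine ⟨mrg 0 α β, h3, fun i => ?_⟩
      rcases Nat.even_or_odd' i with ⟨i', rfl | rfl⟩
      · have := congrFun (mrg_ev α β) i'
        beta_reduce at this
        rw [this]
        exact (c0 i' _ x).1 (h1 i')
      · have := congrFun (mrg_od α β) i'
        beta_reduce at this
        rw [this]
        exact (c1 i' _ x).1 (h2 i')
  · rintro (⟨y, hy, h1⟩ | ⟨i, h0, h1, h2⟩)
    · right
      refine ⟨fun k => y (2 * k), fun k => y (2 * k + 1), fun i => (c0 i _ x).2 (h1 _),
        fun i => (c1 i _ x).2 (h1 _), ?_⟩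
      have : mrg 0 (fun k => y (2 * k)) (fun k => y (2 * k + 1)) = y := by
        funext n
        unfold mrg
        rcases Nat.even_or_odd' n with ⟨n', rfl | rfl⟩
        · have e1 : 2 * n' % 2 = 0 := by omega
          have e2 : 2 * (2 * n' / 2) = 2 * n' := by omega
          simp only [e1, if_true, e2]
        · have e1 : ¬ (2 * n' + 1) % 2 = 0 := by omega
          have e2 : 2 * ((2 * n' + 1) / 2) + 1 = 2 * n' + 1 := by omega
          simp only [e1, if_false, e2]
      beta_reduce
      rw [this]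
      exact hy
    · left
      refine ⟨i / 2, ?_, fun j hj => ?_, fun j hj => ?_⟩
      · rintro ⟨b, hb⟩
        apply h1
        refine ⟨b, ?_⟩
        have := (c1 (i / 2) b x).1 hb
        have e1 : 2 * (i / 2) + 1 = i := by omega
        rwa [e1] at this
      · obtain ⟨b, hb⟩ := h2 (2 * j + 1) (by omega)
        exact ⟨b, (c1 j b x).2 hb⟩
      · obtain ⟨b, hb⟩ := h2 (2 * j) (by omega)
        exact ⟨b, (c0 j b x).2 hb⟩

/-- The games with the payoff sets `LimitPayoff f C A` and `A` have the same winner. -/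
theorem limitPayoff_wins (hf : f ≤ cofinite) (hpar : ∀ i, ∀ n ∈ C i, n % 2 = i % 2)
    (hdis : ∀ i j, i ≠ j → Disjoint (C i) (C j))
    (he : ∀ i, ∃ e : List Bool → Bool, ∀ x b, Lim f (C i) b x →
      ∀ᶠ n in atTop, e (hist x n) = b) (A : Set (ℕ → Bool)) :
    (WinsI (LimitPayoff f C A) ↔ WinsI A) ∧ (WinsII (LimitPayoff f C A) ↔ WinsII A) := by
  choose e he using he
  rw [← limitPayoff_eq hf hpar hdis he A]
  exact ⟨winsI_star _ _ _, winsII_star _ _ _⟩

theorem Lim.congr {C : Set ℕ} {b : Bool} {x y : ℕ → Bool} (h : ∀ᶠ n in f, x n = y n)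
    (hx : Lim f C b x) : Lim f C b y := by
  filter_upwards [h, hx] with n h1 h2 h3
  rw [← h1]
  exact h2 h3

theorem limitPayoff_of_lim {A : Set (ℕ → Bool)} {x y : ℕ → Bool}
    (h : ∀ i b, Lim f (C i) b x ↔ Lim f (C i) b y) (hx : x ∈ LimitPayoff f C A) :
    y ∈ LimitPayoff f C A := by
  rcases hx with ⟨z, hz, h1⟩ | ⟨i, h0, h1, h2⟩
  · exact Or.inl ⟨z, hz, fun i => (h _ _).1 (h1 i)⟩
  · refine Or.inr ⟨i, h0, ?_, fun j hj => ?_⟩
    · rintro ⟨b, hb⟩
      exact h1 ⟨b, (h _ _).2 hb⟩
    · obtain ⟨b, hb⟩ := h2 j hj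
      exact ⟨b, (h _ _).1 hb⟩

theorem limitPayoff_congr {A : Set (ℕ → Bool)} {x y : ℕ → Bool} (h : ∀ᶠ n in f, x n = y n)
    (hx : x ∈ LimitPayoff f C A) : y ∈ LimitPayoff f C A :=
  limitPayoff_of_lim (fun _ _ => ⟨fun h' => h'.congr h,
    fun h' => h'.congr (h.mono fun _ hn => hn.symm)⟩) hx

end

/-- the estimator for convergence along an infinite set -/
theorem exists_est_cofinite {C : Set ℕ} (hC : C.Infinite) :
    ∃ e : List Bool → Bool, ∀ x b, Lim cofinite C b x → ∀ᶠ n in atTop, e (hist x n) = b := by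
  classical
  -- the last value at a place in `C`
  refine ⟨fun h => decide (∃ j, j < h.length ∧ j ∈ C ∧ h.getD j false = true ∧
    ∀ j', j' < h.length → j < j' → j' ∉ C), fun x b hx => ?_⟩
  obtain ⟨N, hN⟩ : ∃ N, ∀ n, N ≤ n → n ∈ C → x n = b := by
    unfold Lim at hx
    rw [Nat.cofinite_eq_atTop] at hx
    exact eventually_atTop.1 hx
  obtain ⟨c, hc, hNc⟩ := hC.exists_gt N
  refine eventually_atTop.2 ⟨c + 1, fun n hn => ?_⟩
  have hlen : (hist x n).length = n := by simp [hist]
  -- the last element of `C` below `n`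
  let P : ℕ → Prop := fun j => j ∈ C
  have hj1 : Nat.findGreatest P (n - 1) ∈ C :=
    Nat.findGreatest_spec (P := P) (m := c) (by omega) hc
  have hj2 : c ≤ Nat.findGreatest P (n - 1) := Nat.le_findGreatest (by omega) hc
  have hj3 : Nat.findGreatest P (n - 1) ≤ n - 1 := Nat.findGreatest_le _
  set j := Nat.findGreatest P (n - 1) with hj
  have hj4 : ∀ j', j' < n → j < j' → j' ∉ C := by
    intro j' h1 h2 h3
    exact Nat.findGreatest_is_greatest (P := P) h2 (by omega) h3
  have hxj : x j = b := hN j (by omega) hj1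
  beta_reduce
  rw [hlen]
  cases b with
  | true =>
    rw [decide_eq_true_iff]
    exact ⟨j, by omega, hj1, by rw [hist_getD _ (by omega)]; exact hxj, hj4⟩
  | false =>
    rw [decide_eq_false_iff_not]
    rintro ⟨j', h1, h2, h3, h4⟩
    rw [hist_getD _ h1] at h3
    have h5 : j' = j := by
      rcases lt_trichotomy j' j with h | h | h
      · exact absurd hj1 (h4 j (by omega) h)
      · exact h
      · exact absurd h2 (hj4 j' h1 h)
    rw [h5, hxj] at h3
    exact absurd h3 (by decide)

end Pool.Agent.R620.TD
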