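import Pool.Agent.H685R3.KDefs
import Pool.Agent.R620.TD.Core

set_option autoImplicit false

namespace Pool.Agent.R620.TD

open Filter Pool.Agent.H685R3

/-- the play with the own moves `a` and the moves `b` of the opponent -/
def mrg (p : ℕ) (a b : ℕ → Bool) (n : ℕ) : Bool := if n % 2 = p then a (n / 2) else b (n / 2)

theorem hist_succ (x : ℕ → Bool) (n : ℕ) : hist x (n + 1) = hist x n ++ [x n] := by
  unfold hist
  rw [List.range_succ, List.map_append, List.map_singleton]

theorem hist_congr {x y : ℕ → Bool} {n : ℕ} (h : ∀ i, i < n → x i = y i) :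
    hist x n = hist y n := by
  unfold hist
  exact List.map_congr_left fun i hi => h i (List.mem_range.1 hi)

theorem hist_getD (x : ℕ → Bool) {n i : ℕ} (h : i < n) : (hist x n).getD i false = x i := by
  unfold hist
  rw [List.getD_eq_getElem?_getD, List.getElem?_map, List.getElem?_range h]
  rfl

/-- the first `n` moves of the play with the strategy `s` of `p` and the moves `y` -/
def LL (p : ℕ) (s : List Bool → Bool) (y : ℕ → Bool) : ℕ → List Bool
  | 0 => []
  | n + 1 => LL p s y n ++ [if n % 2 = p then s (LL p s y n) else y (n / 2)]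

/-- the play -/
def XX (p : ℕ) (s : List Bool → Bool) (y : ℕ → Bool) (n : ℕ) : Bool :=
  if n % 2 = p then s (LL p s y n) else y (n / 2)

theorem hist_XX (p : ℕ) (s : List Bool → Bool) (y : ℕ → Bool) (n : ℕ) :
    hist (XX p s y) n = LL p s y n := by
  induction n with
  | zero => rfl
  | succ n ih => rw [hist_succ, ih]; rfl

theorem LL_congr (p : ℕ) (s : List Bool → Bool) (y y' : ℕ → Bool) (n : ℕ)
    (h : ∀ m, m < n → m % 2 ≠ p → y (m / 2) = y' (m / 2)) : LL p s y n = LL p s y' n := by
  induction n with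
  | zero => rfl
  | succ n ih =>
    have e := ih fun m hm => h m (by omega)
    simp only [LL]
    rw [e]
    by_cases hn : n % 2 = p
    · simp [hn]
    · rw [if_neg hn, if_neg hn, h n (by omega) hn]

theorem strat_iff {p : ℕ} (hp : p ≤ 1) (B : Set (ℕ → Bool)) :
    (∃ s : List Bool → Bool, ∀ x : ℕ → Bool, (∀ n, x (2 * n + p) = s (hist x (2 * n + p))) →
      x ∈ B) ↔ WinP p fun a b => mrg p a b ∈ B := by
  constructor
  · rintro ⟨s, hs⟩
    refine ⟨fun y k => XX p s y (2 * k + p), fun y y' k h => ?_, fun y => ?_⟩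
    · have e : (2 * k + p) % 2 = p := by omega
      simp only [XX, if_pos e]
      congr 1
      refine LL_congr p s y y' _ fun m hm hm2 => h _ ?_
      omega
    · have e : mrg p (fun k => XX p s y (2 * k + p)) y = XX p s y := by
        funext n
        by_cases hn : n % 2 = p
        · simp only [mrg, if_pos hn]
          congr 1
          omega
        · simp only [mrg, if_neg hn, XX]
      beta_reduce
      rw [e]
      refine hs _ fun n => ?_
      rw [hist_XX]
      have e : (2 * n + p) % 2 = p := by omega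
      simp only [XX, if_pos e]
  · rintro ⟨F, hF, hB⟩
    refine ⟨fun h => F (fun i => h.getD (2 * i + 1 - p) false) (h.length / 2), fun x hx => ?_⟩
    have e : mrg p (F fun i => x (2 * i + 1 - p)) (fun i => x (2 * i + 1 - p)) = x := by
      funext n
      by_cases hn : n % 2 = p
      · simp only [mrg, if_pos hn]
        have e1 := hx (n / 2)
        have e2 : 2 * (n / 2) + p = n := by omega
        rw [e2] at e1
        have e3 : (hist x n).length / 2 = n / 2 := by simp [hist]
        rw [e1]
        beta_reduce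
        rw [e3]
        refine hF _ _ _ fun i hi => ?_
        rw [hist_getD]
        omega
      · simp only [mrg, if_neg hn]
        congr 1
        omega
    rw [← e]
    exact hB _

theorem winsI_iff (B : Set (ℕ → Bool)) : WinsI B ↔ WinP 0 fun a b => mrg 0 a b ∈ B := by
  rw [← strat_iff (by omega)]
  rfl

theorem mrg_swap (a b : ℕ → Bool) : mrg 1 b a = mrg 0 a b := by
  funext n
  unfold mrg
  rcases Nat.mod_two_eq_zero_or_one n with h | h <;> simp [h]

theorem winsII_iff (B : Set (ℕ → Bool)) : WinsII B ↔ WinP 1 fun b a => mrg 0 a b ∉ B := by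
  have h := strat_iff (p := 1) (by omega) Bᶜ
  have e : (fun a b => mrg 1 a b ∈ Bᶜ) = fun b a => mrg 0 a b ∉ B := by
    funext b a
    rw [mrg_swap]
    rfl
  rw [e] at h
  rw [← h]
  rfl

theorem star_compl (SI SII : Scheme) (R : (ℕ → Bool) → (ℕ → Bool) → Prop) (a b : ℕ → Bool) :
    ¬ Star 0 SI SII R a b ↔ Star 1 SII SI (fun β α => ¬ R α β) b a := by
  classical
  by_cases hall : (∀ i, SI.C i a) ∧ ∀ i, SII.C i b
  · obtain ⟨hI, hII⟩ := hall
    choose α hα using hI
    choose β hβ using hII
    constructor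
    · intro h
      exact Or.inr ⟨β, α, hβ, hα, fun hr => h (Or.inr ⟨α, β, hα, hβ, hr⟩)⟩
    · rintro (⟨i, hi, -⟩ | ⟨β', α', h1, h2, h3⟩)
      · exact absurd ⟨_, hα i⟩ hi
      · rintro (⟨i, hi, -⟩ | ⟨α'', β'', h4, h5, h6⟩)
        · exact absurd ⟨_, hβ i⟩ hi
        · have e1 : α'' = α' := funext fun i => SI.conv_unique (h4 i) (h2 i)
          have e2 : β'' = β' := funext fun i => SII.conv_unique (h5 i) (h1 i)
          rw [e1, e2] at h6
          exact h3 h6
  · -- somebody is to blame
    have key : (∃ i, ¬ SII.C i b ∧ (∀ j, j < i → SII.C j b) ∧ (∀ j, j + 0 < i + 1 → SI.C j a)) ∨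
        (∃ i, ¬ SI.C i a ∧ (∀ j, j < i → SI.C j a) ∧ (∀ j, j + 1 < i + 1 → SII.C j b)) := by
      by_cases hI : ∀ i, SI.C i a
      · have hII : ∃ i, ¬ SII.C i b := by
          by_contra hc
          push Not at hc
          exact hall ⟨hI, hc⟩
        exact Or.inl ⟨Nat.find hII, Nat.find_spec hII, fun j hj => not_not.1 (Nat.find_min hII hj),
          fun j _ => hI j⟩
      · push Not at hI
        by_cases hII : ∃ i, i < Nat.find hI ∧ ¬ SII.C i b
        · have hII' : ∃ i, ¬ SII.C i b := ⟨_, hII.choose_spec.2⟩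
          have hle : Nat.find hII' < Nat.find hI :=
            lt_of_le_of_lt (Nat.find_min' hII' hII.choose_spec.2) hII.choose_spec.1
          exact Or.inl ⟨Nat.find hII', Nat.find_spec hII',
            fun j hj => not_not.1 (Nat.find_min hII' hj),
            fun j hj => not_not.1 (Nat.find_min hI (by omega))⟩
        · push Not at hII
          exact Or.inr ⟨Nat.find hI, Nat.find_spec hI, fun j hj => not_not.1 (Nat.find_min hI hj),
            fun j hj => hII j (by omega)⟩
    have excl : ¬ ((∃ i, ¬ SII.C i b ∧ (∀ j, j < i → SII.C j b) ∧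
          (∀ j, j + 0 < i + 1 → SI.C j a)) ∧
        (∃ i, ¬ SI.C i a ∧ (∀ j, j < i → SI.C j a) ∧ (∀ j, j + 1 < i + 1 → SII.C j b))) := by
      rintro ⟨⟨i, h1, h2, h3⟩, ⟨i', h4, h5, h6⟩⟩
      have q1 : ¬ i' < i + 1 := fun h => h4 (h3 i' (by omega))
      exact h1 (h6 i (by omega))
    have nall : ∀ (α β : ℕ → Bool), (∀ i, SI.Conv i (α i) a) → (∀ i, SII.Conv i (β i) b) → False :=
      fun α β h1 h2 => hall ⟨fun i => ⟨_, h1 i⟩, fun i => ⟨_, h2 i⟩⟩
    constructor
    · intro h
      rcases key with hk | hk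
      · exact absurd (Or.inl hk) h
      · exact Or.inl hk
    · rintro (h | ⟨β', α', h1, h2, -⟩)
      · rintro (h' | ⟨α'', β'', h4, h5, -⟩)
        · exact excl ⟨h', h⟩
        · exact nall _ _ h4 h5
      · exact (nall _ _ h2 h1).elim

/-- The first digit without limit is a digit of player II, or all digits have limits and the
sequence of the limits is in `A`. -/
def StarSet (SI SII : Scheme) (A : Set (ℕ → Bool)) : Set (ℕ → Bool) :=
  {x | Star 0 SI SII (fun α β => mrg 0 α β ∈ A) (fun k => x (2 * k)) fun k => x (2 * k + 1)}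

theorem mrg_ev (a b : ℕ → Bool) : (fun k => mrg 0 a b (2 * k)) = a := by
  funext k
  have h1 : 2 * k % 2 = 0 := by omega
  have h2 : 2 * k / 2 = k := by omega
  simp only [mrg, h1, h2, if_true]

theorem mrg_od (a b : ℕ → Bool) : (fun k => mrg 0 a b (2 * k + 1)) = b := by
  funext k
  have h1 : (2 * k + 1) % 2 = 1 := by omega
  have h2 : (2 * k + 1) / 2 = k := by omega
  simp [mrg, h1, h2]

theorem winsI_star (SI SII : Scheme) (A : Set (ℕ → Bool)) :
    WinsI (StarSet SI SII A) ↔ WinsI A := by
  have e : (fun a b => mrg 0 a b ∈ StarSet SI SII A) =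
      Star 0 SI SII fun α β => mrg 0 α β ∈ A := by
    funext a b
    simp only [StarSet, Set.mem_ofPred_eq, mrg_ev, mrg_od]
  rw [winsI_iff, winsI_iff, e, winP_star]

theorem winsII_star (SI SII : Scheme) (A : Set (ℕ → Bool)) :
    WinsII (StarSet SI SII A) ↔ WinsII A := by
  have e : (fun b a => mrg 0 a b ∉ StarSet SI SII A) =
      Star 1 SII SI fun β α => mrg 0 α β ∉ A := by
    funext b a
    rw [← star_compl SI SII (fun α β => mrg 0 α β ∈ A) a b]
    simp only [StarSet, Set.mem_ofPred_eq, mrg_ev, mrg_od]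
  rw [winsII_iff, winsII_iff, e, winP_star]

end Pool.Agent.R620.TD
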