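import Pool.Agent.R620.TD.Tail
import Pool.Agent.R620.TD.Dens

set_option autoImplicit false

namespace Pool.Agent.R620.TD

open Filter Topology Pool.Agent.H685R3

/-! ### Measurability of the reductions -/

theorem meas_eventually {X : Type*} [MeasurableSpace X] {P : ℕ → X → Prop}
    (h : ∀ k, MeasurableSet {x | P k x}) : MeasurableSet {x | ∀ᶠ k in atTop, P k x} := by
  have : {x | ∀ᶠ k in atTop, P k x} = ⋃ N, ⋂ k, ⋂ (_ : N ≤ k), {x | P k x} := by
    ext x
    simp only [eventually_atTop, Set.mem_ofPred_eq, Set.mem_iUnion, Set.mem_iInter]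
  rw [this]
  exact MeasurableSet.iUnion fun N => MeasurableSet.iInter fun k => MeasurableSet.iInter fun _ =>
    h k

theorem meas_frequently {X : Type*} [MeasurableSpace X] {P : ℕ → X → Prop}
    (h : ∀ k, MeasurableSet {x | P k x}) : MeasurableSet {x | ∃ᶠ k in atTop, P k x} := by
  have : {x | ∃ᶠ k in atTop, P k x} = {x | ∀ᶠ k in atTop, ¬ P k x}ᶜ := by
    ext x
    simp only [Filter.Frequently, Set.mem_ofPred_eq, Set.mem_compl_iff]
  rw [this]
  exact (meas_eventually fun k => (h k).compl).compl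

/-- sets which depend on finitely many places -/
theorem meas_of_finite {P : (ℕ → Bool) → Prop} (k : ℕ)
    (h : ∀ s s' : ℕ → Bool, (∀ j, j < k → s j = s' j) → (P s ↔ P s')) :
    MeasurableSet {s | P s} := by
  let r : (ℕ → Bool) → (Fin k → Bool) := fun s j => s j
  have hr : Measurable r := measurable_pi_lambda _ fun j => measurable_pi_apply _
  have : {s | P s} = r ⁻¹' (r '' {s | P s}) := by
    ext s
    constructor
    · intro hs
      exact ⟨s, hs, rfl⟩
    · rintro ⟨s', hs', e⟩
      refine (h s' s fun j hj => ?_).1 hs'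
      exact congrFun e ⟨j, hj⟩
  rw [this]
  exact hr (Set.toFinite _).measurableSet

/-- Borel form of the reduction. -/
theorem star_borel (SI SII : Scheme) (h1 : ∀ i b, MeasurableSet {s | SI.Conv i b s})
    (h2 : ∀ i b, MeasurableSet {s | SII.Conv i b s}) :
    ∃ (Φ : (ℕ → Bool) → ℕ → Bool) (D N : Set (ℕ → Bool)), Measurable Φ ∧ MeasurableSet D ∧
      MeasurableSet N ∧ ∀ A, StarSet SI SII A = (D ∩ Φ ⁻¹' A) ∪ N := by
  classical
  have e0 : Measurable fun (x : ℕ → Bool) (k : ℕ) => x (2 * k) :=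
    measurable_pi_lambda _ fun k => measurable_pi_apply _
  have e1 : Measurable fun (x : ℕ → Bool) (k : ℕ) => x (2 * k + 1) :=
    measurable_pi_lambda _ fun k => measurable_pi_apply _
  have m1 : ∀ i b, MeasurableSet {x : ℕ → Bool | SI.Conv i b fun k => x (2 * k)} := fun i b =>
    e0 (h1 i b)
  have m2 : ∀ i b, MeasurableSet {x : ℕ → Bool | SII.Conv i b fun k => x (2 * k + 1)} := fun i b =>
    e1 (h2 i b)
  have c1 : ∀ i, MeasurableSet {x : ℕ → Bool | SI.C i fun k => x (2 * k)} := by
    intro i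
    have : {x : ℕ → Bool | SI.C i fun k => x (2 * k)} =
        ⋃ b, {x : ℕ → Bool | SI.Conv i b fun k => x (2 * k)} := by
      ext x
      simp only [Scheme.C, Set.mem_iUnion]
      rfl
    rw [this]
    exact MeasurableSet.iUnion fun b => m1 i b
  have c2 : ∀ i, MeasurableSet {x : ℕ → Bool | SII.C i fun k => x (2 * k + 1)} := by
    intro i
    have : {x : ℕ → Bool | SII.C i fun k => x (2 * k + 1)} =
        ⋃ b, {x : ℕ → Bool | SII.Conv i b fun k => x (2 * k + 1)} := by
      ext x
      simp only [Scheme.C, Set.mem_iUnion]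
      rfl
    rw [this]
    exact MeasurableSet.iUnion fun b => m2 i b
  let Φ : (ℕ → Bool) → ℕ → Bool := fun x n =>
    if n % 2 = 0 then decide (SI.Conv (n / 2) true fun k => x (2 * k))
    else decide (SII.Conv (n / 2) true fun k => x (2 * k + 1))
  let D : Set (ℕ → Bool) := (⋂ i, {x : ℕ → Bool | SI.C i fun k => x (2 * k)}) ∩
    ⋂ i, {x : ℕ → Bool | SII.C i fun k => x (2 * k + 1)}
  let N : Set (ℕ → Bool) := ⋃ i, ({x : ℕ → Bool | SII.C i fun k => x (2 * k + 1)}ᶜ ∩
    ((⋂ j, ⋂ (_ : j < i), {x : ℕ → Bool | SII.C j fun k => x (2 * k + 1)}) ∩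
      ⋂ j, ⋂ (_ : j + 0 < i + 1), {x : ℕ → Bool | SI.C j fun k => x (2 * k)}))
  refine ⟨Φ, D, N, ?_, ?_, ?_, fun A => ?_⟩
  · refine measurable_pi_lambda _ fun n => ?_
    by_cases hn : n % 2 = 0
    · simp only [Φ, if_pos hn]
      refine measurable_to_bool ?_
      have : (fun x : ℕ → Bool => decide (SI.Conv (n / 2) true fun k => x (2 * k))) ⁻¹' {true} =
          {x : ℕ → Bool | SI.Conv (n / 2) true fun k => x (2 * k)} := by
        ext x
        simp
      rw [this]
      exact m1 _ _
    · simp only [Φ, if_neg hn]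
      refine measurable_to_bool ?_
      have : (fun x : ℕ → Bool => decide (SII.Conv (n / 2) true fun k => x (2 * k + 1))) ⁻¹' {true} =
          {x : ℕ → Bool | SII.Conv (n / 2) true fun k => x (2 * k + 1)} := by
        ext x
        simp
      rw [this]
      exact m2 _ _
  · exact (MeasurableSet.iInter c1).inter (MeasurableSet.iInter c2)
  · exact MeasurableSet.iUnion fun i => (c2 i).compl.inter
      ((MeasurableSet.iInter fun j => MeasurableSet.iInter fun _ => c2 j).inter
        (MeasurableSet.iInter fun j => MeasurableSet.iInter fun _ => c1 j))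
  · ext x
    have hD : x ∈ D ↔ (∀ i, SI.C i fun k => x (2 * k)) ∧ ∀ i, SII.C i fun k => x (2 * k + 1) := by
      simp only [D, Set.mem_inter_iff, Set.mem_iInter]
      rfl
    have hN : x ∈ N ↔ ∃ i, ¬ SII.C i (fun k => x (2 * k + 1)) ∧
        (∀ j, j < i → SII.C j fun k => x (2 * k + 1)) ∧
        (∀ j, j + 0 < i + 1 → SI.C j fun k => x (2 * k)) := by
      simp only [N, Set.mem_iUnion, Set.mem_inter_iff, Set.mem_iInter, Set.mem_compl_iff]
      rfl
    have hΦ : ∀ α β : ℕ → Bool, (∀ i, SI.Conv i (α i) fun k => x (2 * k)) →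
        (∀ i, SII.Conv i (β i) fun k => x (2 * k + 1)) → Φ x = mrg 0 α β := by
      intro α β h3 h4
      funext n
      by_cases hn : n % 2 = 0
      · simp only [Φ, mrg, if_pos hn]
        cases hα : α (n / 2) with
        | true => exact decide_eq_true (hα ▸ h3 (n / 2))
        | false =>
          refine decide_eq_false fun hc => ?_
          have := SI.conv_unique hc (h3 (n / 2))
          rw [hα] at this
          exact absurd this (by decide)
      · simp only [Φ, mrg, if_neg hn]
        cases hβ : β (n / 2) with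
        | true => exact decide_eq_true (hβ ▸ h4 (n / 2))
        | false =>
          refine decide_eq_false fun hc => ?_
          have := SII.conv_unique hc (h4 (n / 2))
          rw [hβ] at this
          exact absurd this (by decide)
    constructor
    · rintro (h | ⟨α, β, h3, h4, h5⟩)
      · exact Or.inr (hN.2 h)
      · refine Or.inl ⟨hD.2 ⟨fun i => ⟨_, h3 i⟩, fun i => ⟨_, h4 i⟩⟩, ?_⟩
        show Φ x ∈ A
        rw [hΦ α β h3 h4]
        exact h5
    · rintro (⟨h3, h4⟩ | h3)
      · obtain ⟨h5, h6⟩ := hD.1 h3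
        choose α hα using h5
        choose β hβ using h6
        refine Or.inr ⟨α, β, hα, hβ, ?_⟩
        beta_reduce
        rw [← hΦ α β hα hβ]
        exact h4
      · exact Or.inl (hN.1 h3)

theorem meas_RConv (i : ℕ) (b : Bool) : MeasurableSet {s | rs.Conv i b s} := by
  have h1 : MeasurableSet {s : ℕ → Bool | ∃ᶠ k in atTop, s k = true} :=
    meas_frequently fun k => meas_of_finite (k + 1) fun s s' h => by rw [h k (by omega)]
  have h2 : MeasurableSet {s : ℕ → Bool | ∀ᶠ k in atTop, s k = true → (wd s k)[i]? = some b} := by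
    refine meas_eventually fun k => meas_of_finite (k + 1) fun s s' h => ?_
    have e : wd s k = wd s' k := by
      unfold wd
      rw [run_congr (s := s) (s' := s') fun j hj => h j (by omega)]
    rw [h k (by omega), e]
  exact h1.inter h2

theorem meas_pad (q : ℕ) : Measurable (pad q) := by
  refine measurable_pi_lambda _ fun n => ?_
  unfold pad
  by_cases hn : n % 2 = q
  · simp only [if_pos hn]
    exact measurable_pi_apply _
  · simp only [if_neg hn]
    exact measurable_const

theorem meas_lim_cofinite (C : Set ℕ) (b : Bool) : MeasurableSet {x | Lim cofinite C b x} := by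
  unfold Lim
  rw [Nat.cofinite_eq_atTop]
  refine meas_eventually fun k => meas_of_finite (k + 1) fun s s' h => ?_
  rw [h k (by omega)]

theorem meas_lim_dens (C : Set ℕ) (b : Bool) : MeasurableSet {x | Lim dens C b x} := by
  have : {x | Lim dens C b x} = {x | Tendsto (fun N : ℕ =>
      ((({n | n ∈ C → x n = b}ᶜ ∩ Set.Iio N).ncard : ℕ) : ℝ) / N) atTop (𝓝 0)} := rfl
  rw [this]
  refine measurableSet_tendsto _ fun N => ?_
  refine Measurable.div_const ?_ _
  refine (measurable_from_top (f := fun n : ℕ => (n : ℝ))).comp ?_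
  refine measurable_to_countable' fun m => ?_
  refine meas_of_finite N fun s s' h => ?_
  have e : {n | n ∈ C → s n = b}ᶜ ∩ Set.Iio N = {n | n ∈ C → s' n = b}ᶜ ∩ Set.Iio N := by
    ext n
    simp only [Set.mem_inter_iff, Set.mem_compl_iff, Set.mem_ofPred_eq, Set.mem_Iio]
    constructor
    · rintro ⟨h3, h4⟩
      exact ⟨by rw [← h n h4]; exact h3, h4⟩
    · rintro ⟨h3, h4⟩
      exact ⟨by rw [h n h4]; exact h3, h4⟩
  rw [Set.mem_singleton_iff, Set.mem_singleton_iff]
  beta_reduce
  rw [e]

/-- Borel form of the limit payoffs. -/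
theorem limitPayoff_borel {f : Filter ℕ} {C : ℕ → Set ℕ} (hf : f ≤ cofinite)
    (hpar : ∀ i, ∀ n ∈ C i, n % 2 = i % 2) (hdis : ∀ i j, i ≠ j → Disjoint (C i) (C j))
    (he : ∀ i, ∃ e : List Bool → Bool, ∀ x b, Lim f (C i) b x →
      ∀ᶠ n in atTop, e (hist x n) = b) (hm : ∀ i b, MeasurableSet {x | Lim f (C i) b x}) :
    ∃ (Φ : (ℕ → Bool) → ℕ → Bool) (D N : Set (ℕ → Bool)), Measurable Φ ∧ MeasurableSet D ∧
      MeasurableSet N ∧ ∀ A, LimitPayoff f C A = (D ∩ Φ ⁻¹' A) ∪ N := by
  choose e he using he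
  obtain ⟨Φ, D, N, h1, h2, h3, h4⟩ := star_borel (fs f C e hf hpar hdis he 0 (by omega))
    (fs f C e hf hpar hdis he 1 (by omega)) (fun i b => meas_pad 0 (hm (2 * i + 0) b))
    (fun i b => meas_pad 1 (hm (2 * i + 1) b))
  refine ⟨Φ, D, N, h1, h2, h3, fun A => ?_⟩
  rw [← limitPayoff_eq hf hpar hdis he A]
  exact h4 A

end Pool.Agent.R620.TD
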