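import Pool.Agent.R620.TD.Fil

set_option autoImplicit false

namespace Pool.Agent.R620.TD

open Filter Pool.Agent.H685R3

/-- `A` is closed under all permutations of the positions which preserve the function `c`. -/
def PermClosed (c : ℕ → ℕ) (A : Set (ℕ → Bool)) : Prop :=
  ∀ π : Equiv.Perm ℕ, (∀ n, c (π n) = c n) → ∀ x ∈ A, x ∘ π ∈ A

theorem Lim.perm {C : Set ℕ} {b : Bool} {x : ℕ → Bool} {π : Equiv.Perm ℕ}
    (hπ : ∀ n, π n ∈ C ↔ n ∈ C) (hx : Lim cofinite C b x) : Lim cofinite C b (x ∘ π) := by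
  have h1 : Tendsto π cofinite cofinite := π.injective.tendsto_cofinite
  have h2 := h1.eventually hx
  filter_upwards [h2] with n hn hnC
  exact hn ((hπ n).2 hnC)

theorem lim_perm_iff {C : Set ℕ} {b : Bool} {x : ℕ → Bool} {π : Equiv.Perm ℕ}
    (hπ : ∀ n, π n ∈ C ↔ n ∈ C) : Lim cofinite C b x ↔ Lim cofinite C b (x ∘ π) := by
  refine ⟨Lim.perm hπ, fun h => ?_⟩
  have h1 : Lim cofinite C b ((x ∘ π) ∘ π.symm) :=
    Lim.perm (π := π.symm) (fun n => by rw [← hπ (π.symm n), Equiv.apply_symm_apply]) h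
  have h2 : (x ∘ π) ∘ π.symm = x := by
    funext n
    simp
  rwa [h2] at h1

/-- One-sided columns: the columns used for the two players. -/
theorem exists_columns (c : ℕ → ℕ)
    (h0 : {i | (c ⁻¹' {i}).Infinite ∧ ∀ n, c n = i → n % 2 = 0}.Infinite)
    (h1 : {i | (c ⁻¹' {i}).Infinite ∧ ∀ n, c n = i → n % 2 = 1}.Infinite) :
    ∃ ix : ℕ → ℕ, (∀ i, (c ⁻¹' {ix i}).Infinite) ∧ (∀ i, ∀ n ∈ c ⁻¹' {ix i}, n % 2 = i % 2) ∧
      ∀ i j, i ≠ j → Disjoint (c ⁻¹' {ix i}) (c ⁻¹' {ix j}) := by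
  let g0 := h0.natEmbedding
  let g1 := h1.natEmbedding
  let ix : ℕ → ℕ := fun i => if i % 2 = 0 then (g0 (i / 2) : ℕ) else (g1 (i / 2) : ℕ)
  have p0 : ∀ k, (c ⁻¹' {(g0 k : ℕ)}).Infinite ∧ ∀ n, c n = g0 k → n % 2 = 0 := fun k => (g0 k).2
  have p1 : ∀ k, (c ⁻¹' {(g1 k : ℕ)}).Infinite ∧ ∀ n, c n = g1 k → n % 2 = 1 := fun k => (g1 k).2
  have hinf : ∀ i, (c ⁻¹' {ix i}).Infinite := by
    intro i
    by_cases hi : i % 2 = 0
    · simp only [ix, if_pos hi]
      exact (p0 _).1
    · simp only [ix, if_neg hi]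
      exact (p1 _).1
  have hpar : ∀ i, ∀ n ∈ c ⁻¹' {ix i}, n % 2 = i % 2 := by
    intro i n hn
    by_cases hi : i % 2 = 0
    · simp only [ix, if_pos hi] at hn
      rw [hi]
      exact (p0 _).2 n hn
    · simp only [ix, if_neg hi] at hn
      rw [(p1 _).2 n hn]
      omega
  have hix : ∀ i j, ix i = ix j → i = j := by
    intro i j hij
    obtain ⟨n, hn⟩ := (hinf i).nonempty
    have q1 := hpar i n hn
    have hn' : n ∈ c ⁻¹' {ix j} := by
      rw [← hij]
      exact hn
    have q2 := hpar j n hn'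
    by_cases hi : i % 2 = 0
    · have hj : j % 2 = 0 := by omega
      simp only [ix, if_pos hi, if_pos hj] at hij
      have := g0.injective (Subtype.ext hij)
      omega
    · have hj : ¬ j % 2 = 0 := by omega
      simp only [ix, if_neg hi, if_neg hj] at hij
      have := g1.injective (Subtype.ext hij)
      omega
  refine ⟨ix, hinf, hpar, fun i j hij => ?_⟩
  rw [Set.disjoint_left]
  intro n hn hn'
  exact hij (hix i j (hn.symm.trans hn'))

theorem perm_closed (c ix : ℕ → ℕ) (A : Set (ℕ → Bool)) :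
    PermClosed c (LimitPayoff cofinite (fun i => c ⁻¹' {ix i}) A) := by
  intro π hπ x hx
  refine limitPayoff_of_lim (fun i b => lim_perm_iff fun n => ?_) hx
  show c (π n) = ix i ↔ c n = ix i
  rw [hπ]

theorem fin_closed (c ix : ℕ → ℕ) (A : Set (ℕ → Bool)) (x y : ℕ → Bool)
    (h : ∀ i, {n | c n = i ∧ x n ≠ y n}.Finite)
    (hx : x ∈ LimitPayoff cofinite (fun i => c ⁻¹' {ix i}) A) :
    y ∈ LimitPayoff cofinite (fun i => c ⁻¹' {ix i}) A := by
  have key : ∀ (x y : ℕ → Bool), (∀ i, {n | c n = i ∧ x n ≠ y n}.Finite) → ∀ i b,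
      Lim cofinite (c ⁻¹' {ix i}) b x → Lim cofinite (c ⁻¹' {ix i}) b y := by
    intro x y h i b hx
    have h1 : ∀ᶠ n in cofinite, ¬ (c n = ix i ∧ x n ≠ y n) := by
      rw [Filter.eventually_cofinite]
      simpa using h (ix i)
    filter_upwards [h1, hx] with n h2 h3 h4
    by_contra hc
    exact h2 ⟨h4, fun he => hc (by rw [← he]; exact h3 h4)⟩
  refine limitPayoff_of_lim (fun i b => ⟨key x y h i b, key y x (fun i => ?_) i b⟩) hx
  refine (h i).subset ?_
  rintro n ⟨h1, h2⟩
  exact ⟨h1, fun e => h2 e.symm⟩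

/-! ### Two-sided columns -/

/-- every value of `(c, x)` with the first component in the range of `c` is taken infinitely
often -/
def Mixed (c : ℕ → ℕ) (x : ℕ → Bool) : Prop :=
  ∀ (n : ℕ) (b : Bool), {m | c m = c n ∧ x m = b}.Infinite

theorem exists_perm_of_mixed {c : ℕ → ℕ} {x y : ℕ → Bool} (hx : Mixed c x) (hy : Mixed c y) :
    ∃ π : Equiv.Perm ℕ, (∀ n, c (π n) = c n) ∧ x = y ∘ π := by
  have key : ∀ v : ℕ × Bool, Nonempty ({m // (c m, x m) = v} ≃ {m // (c m, y m) = v}) := by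
    rintro ⟨i, b⟩
    by_cases hi : ∃ n, c n = i
    · obtain ⟨n, rfl⟩ := hi
      have h1 : Infinite {m // (c m, x m) = (c n, b)} := by
        have := (hx n b).to_subtype
        refine Infinite.of_injective (fun m : {m | c m = c n ∧ x m = b} =>
          (⟨m.1, by rw [m.2.1, m.2.2]⟩ : {m // (c m, x m) = (c n, b)})) ?_
        intro u v huv
        have huv' : (u : ℕ) = (v : ℕ) := by
          have := congrArg (fun t : {m // (c m, x m) = (c n, b)} => (t : ℕ)) huv
          exact this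
        exact Subtype.ext huv'
      have h2 : Infinite {m // (c m, y m) = (c n, b)} := by
        have := (hy n b).to_subtype
        refine Infinite.of_injective (fun m : {m | c m = c n ∧ y m = b} =>
          (⟨m.1, by rw [m.2.1, m.2.2]⟩ : {m // (c m, y m) = (c n, b)})) ?_
        intro u v huv
        have huv' : (u : ℕ) = (v : ℕ) := by
          have := congrArg (fun t : {m // (c m, y m) = (c n, b)} => (t : ℕ)) huv
          exact this
        exact Subtype.ext huv'
      exact nonempty_equiv_of_countable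
    · have h1 : IsEmpty {m // (c m, x m) = (i, b)} :=
        ⟨fun m => hi ⟨m.1, congrArg Prod.fst m.2⟩⟩
      have h2 : IsEmpty {m // (c m, y m) = (i, b)} :=
        ⟨fun m => hi ⟨m.1, congrArg Prod.fst m.2⟩⟩
      exact ⟨Equiv.equivOfIsEmpty _ _⟩
  let e : ∀ v : ℕ × Bool, {m // (c m, x m) = v} ≃ {m // (c m, y m) = v} := fun v => (key v).some
  let π : Equiv.Perm ℕ := (Equiv.sigmaFiberEquiv fun m => (c m, x m)).symm.trans
    ((Equiv.sigmaCongrRight e).trans (Equiv.sigmaFiberEquiv fun m => (c m, y m)))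
  have hπ : ∀ n, (c (π n), y (π n)) = (c n, x n) := by
    intro n
    exact (e (c n, x n) ⟨n, rfl⟩).2
  exact ⟨π, fun n => congrArg Prod.fst (hπ n), funext fun n => (congrArg Prod.snd (hπ n)).symm⟩

/-- alternating values on an infinite set -/
theorem exists_alt (c : ℕ → ℕ) (q : ℕ) (h : ∀ n, {m | c m = c n ∧ m % 2 = q}.Infinite) :
    ∃ d : ℕ → Bool, ∀ (n : ℕ) (b : Bool), {m | c m = c n ∧ m % 2 = q ∧ d m = b}.Infinite := by
  classical
  let P : ℕ → ℕ → Prop := fun i m => c m = i ∧ m % 2 = q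
  refine ⟨fun m => decide (Nat.count (P (c m)) m % 2 = 0), fun n b => ?_⟩
  have hP : (Set.ofPred (P (c n))).Infinite := h n
  let r : ℕ := if b = true then 0 else 1
  refine Set.infinite_of_injective_forall_mem (f := fun k => Nat.nth (P (c n)) (2 * k + r)) ?_ ?_
  · intro k k' hk
    have := Nat.nth_injective hP hk
    omega
  · intro k
    have h1 : P (c n) (Nat.nth (P (c n)) (2 * k + r)) := Nat.nth_mem_of_infinite hP _
    refine ⟨h1.1, h1.2, ?_⟩
    have h2 : c (Nat.nth (P (c n)) (2 * k + r)) = c n := h1.1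
    beta_reduce
    rw [h2, Nat.count_nth_of_infinite hP]
    cases b with
    | true =>
      rw [decide_eq_true_iff]
      simp only [r, if_true]
      omega
    | false =>
      rw [decide_eq_false_iff_not]
      simp only [r]
      norm_num

/-- Two-sided columns: every closed payoff set is determined. -/
theorem perm_determined (c : ℕ → ℕ) (h : ∀ n q, q < 2 → {m | c m = c n ∧ m % 2 = q}.Infinite)
    (A : Set (ℕ → Bool)) (hA : PermClosed c A) : WinsI A ∨ WinsII A := by
  obtain ⟨d0, hd0⟩ := exists_alt c 0 fun n => h n 0 (by omega)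
  obtain ⟨d1, hd1⟩ := exists_alt c 1 fun n => h n 1 (by omega)
  have hlen : ∀ (x : ℕ → Bool) n, (hist x n).length = n := fun x n => by simp [hist]
  have hI : ∀ x : ℕ → Bool, (∀ n, x (2 * n) = d0 (2 * n)) → Mixed c x := by
    intro x hx n b
    refine (hd0 n b).mono ?_
    rintro m ⟨h1, h2, h3⟩
    refine ⟨h1, ?_⟩
    have e : 2 * (m / 2) = m := by omega
    have := hx (m / 2)
    rw [e] at this
    rw [this, h3]
  have hII : ∀ x : ℕ → Bool, (∀ n, x (2 * n + 1) = d1 (2 * n + 1)) → Mixed c x := by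
    intro x hx n b
    refine (hd1 n b).mono ?_
    rintro m ⟨h1, h2, h3⟩
    refine ⟨h1, ?_⟩
    have e : 2 * (m / 2) + 1 = m := by omega
    have := hx (m / 2)
    rw [e] at this
    rw [this, h3]
  by_cases hex : ∃ y ∈ A, Mixed c y
  · obtain ⟨y, hy, hym⟩ := hex
    left
    refine ⟨fun h => d0 h.length, fun x hx => ?_⟩
    have hxm := hI x fun n => by
      rw [hx n]
      exact congrArg d0 (hlen x _)
    obtain ⟨π, h1, h2⟩ := exists_perm_of_mixed hxm hym
    rw [h2]
    exact hA π h1 y hy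
  · right
    refine ⟨fun h => d1 h.length, fun x hx hxA => hex ⟨x, hxA, hII x fun n => ?_⟩⟩
    rw [hx n]
    exact congrArg d1 (hlen x _)

end Pool.Agent.R620.TD
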