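import Pool.Agent.R620.TD.Game

set_option autoImplicit false

namespace Pool.Agent.R620.TD

open Filter Pool.Agent.H685R3

/-- the number of zeros immediately before the place `k` -/
def run (s : ℕ → Bool) : ℕ → ℕ
  | 0 => 0
  | k + 1 => if s k = true then 0 else run s k + 1

/-- the word reported at the place `k` -/
def wd (s : ℕ → Bool) (k : ℕ) : List Bool :=
  (Encodable.decode (α := List Bool) (run s k)).getD []

/-- the last reported value of the digit `i` -/
def lst (i : ℕ) (s : ℕ → Bool) : ℕ → Bool
  | 0 => false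
  | k + 1 => if s k = true then ((wd s k)[i]?).getD false else lst i s k

theorem run_congr {s s' : ℕ → Bool} {k : ℕ} (h : ∀ j, j < k → s j = s' j) : run s k = run s' k := by
  induction k with
  | zero => rfl
  | succ k ih => simp only [run, h k (by omega), ih fun j hj => h j (by omega)]

theorem lst_congr {i : ℕ} {s s' : ℕ → Bool} {k : ℕ} (h : ∀ j, j < k → s j = s' j) :
    lst i s k = lst i s' k := by
  induction k with
  | zero => rfl
  | succ k ih =>
    simp only [lst, wd, h k (by omega), ih fun j hj => h j (by omega),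
      run_congr (k := k) fun j hj => h j (by omega)]

/-- the digit `i` is reported as `b` in almost all words -/
def RConv (i : ℕ) (b : Bool) (s : ℕ → Bool) : Prop :=
  (∃ᶠ k in atTop, s k = true) ∧ ∀ᶠ k in atTop, s k = true → (wd s k)[i]? = some b

theorem exists_code (w : List Bool) (m : ℕ) :
    ∃ N, m ≤ N ∧ w <+: (Encodable.decode (α := List Bool) N).getD [] := by
  have hinj : Function.Injective fun u : List Bool => Encodable.encode (w ++ u) := by
    intro a b hab
    have := Encodable.encode_injective hab
    exact List.append_cancel_left this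
  have hinf : (Set.range fun u : List Bool => Encodable.encode (w ++ u)).Infinite :=
    Set.infinite_range_of_injective hinj
  obtain ⟨N, ⟨u, rfl⟩, hN⟩ := hinf.exists_gt m
  refine ⟨_, hN.le, ?_⟩
  rw [Encodable.encodek, Option.getD_some]
  exact List.prefix_append _ _

/-- The scheme given by the lengths of the blocks of zeros. -/
def rs : Scheme where
  Conv := RConv
  est := lst
  Leg y n s a b := (∃ j, a ≤ j ∧ j < b ∧ s j = true) ∧
    ∀ j, a ≤ j → j < b → s j = true → ∀ l, l < n → (wd s j)[l]? = some (y l)
  est_loc := fun i s s' k h => lst_congr h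
  conv_est := by
    rintro i b s ⟨h1, h2⟩
    obtain ⟨K, hK⟩ := eventually_atTop.1 h2
    obtain ⟨k0, hk0, hk1⟩ := (h1.and_eventually (eventually_ge_atTop K)).exists
    refine eventually_atTop.2 ⟨k0 + 1, fun k hk => ?_⟩
    induction k, hk using Nat.le_induction with
    | base =>
      simp only [lst, hk0, if_true, hK k0 hk1 hk0, Option.getD_some]
    | succ k hk ih =>
      by_cases hs : s k = true
      · simp only [lst, hs, if_true, hK k (by omega) hs, Option.getD_some]
      · simp only [lst, hs]
        exact ih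
  leg_loc := by
    rintro y n s s' a b h ⟨⟨j, h1, h2, h3⟩, h4⟩
    refine ⟨⟨j, h1, h2, by rw [← h j h2]; exact h3⟩, fun k h5 h6 h7 l hl => ?_⟩
    have e : wd s' k = wd s k := by
      unfold wd
      rw [run_congr (s := s') (s' := s) fun j hj => (h j (by omega)).symm]
    rw [e]
    exact h4 k h5 h6 (by rw [h k h6]; exact h7) l hl
  leg_ex := by
    intro y n s a
    obtain ⟨N, hN, u, hu⟩ := exists_code (hist y n) (run s a)
    -- zeros up to the length `N`, then a one
    let s' : ℕ → Bool := fun k => if k < a then s k else decide (k = a + (N - run s a))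
    have hs1 : ∀ j, j < a → s' j = s j := fun j hj => by simp only [s', if_pos hj]
    have hs2 : ∀ j, a ≤ j → (s' j = true ↔ j = a + (N - run s a)) := fun j hj => by
      simp only [s', if_neg (not_lt.2 hj), decide_eq_true_iff]
    have hr : ∀ k, k ≤ N - run s a → run s' (a + k) = run s a + k := by
      intro k
      induction k with
      | zero => intro _; exact run_congr hs1
      | succ k ih =>
        intro hk
        have h1 : ¬ s' (a + k) = true := by
          rw [hs2 _ (by omega)]
          omega
        rw [← add_assoc, run, if_neg h1, ih (by omega)]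
        omega
    refine ⟨s', a + (N - run s a) + 1, by omega, hs1, ⟨a + (N - run s a), by omega, by omega,
      (hs2 _ (by omega)).2 rfl⟩, fun j h1 h2 h3 l hl => ?_⟩
    rw [hs2 j h1] at h3
    subst h3
    unfold wd
    rw [hr _ le_rfl]
    have e1 : run s a + (N - run s a) = N := by omega
    rw [e1, ← hu, List.getElem?_append_left (by simpa [hist] using hl)]
    unfold hist
    rw [List.getElem?_map, List.getElem?_range hl]
    rfl
  leg_trans := by
    rintro y n s a b c hab hbc ⟨⟨j, h1, h2, h3⟩, h4⟩ ⟨-, h5⟩
    refine ⟨⟨j, h1, by omega, h3⟩, fun k h6 h7 h8 l hl => ?_⟩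
    rcases lt_or_ge k b with h | h
    · exact h4 k h6 h h8 l hl
    · exact h5 k h h7 h8 l hl
  leg_mono := by
    rintro y y' n n' s a b hn hy ⟨h1, h2⟩
    refine ⟨h1, fun j h3 h4 h5 l hl => ?_⟩
    rw [hy l hl]
    exact h2 j h3 h4 h5 l (by omega)
  leg_conv := by
    intro y n s m hm hleg i hi
    refine ⟨?_, ?_⟩
    · rw [frequently_atTop]
      intro N
      obtain ⟨⟨j, h1, h2, h3⟩, -⟩ := hleg N
      have := hm.id_le N
      simp only [id] at this
      exact ⟨j, by omega, h3⟩
    · refine eventually_atTop.2 ⟨m 0, fun k hk hs => ?_⟩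
      obtain ⟨j, h1, h2⟩ : ∃ j, m j ≤ k ∧ k < m (j + 1) := by
        classical
        have hex : ∃ j, k < m (j + 1) := ⟨k, by
          have := hm.id_le (k + 1)
          simp only [id] at this
          omega⟩
        refine ⟨Nat.find hex, ?_, Nat.find_spec hex⟩
        rcases Nat.eq_zero_or_pos (Nat.find hex) with h | h
        · rw [h]
          exact hk
        · have h1 := Nat.find_min hex (Nat.sub_lt h Nat.one_pos)
          rw [Nat.sub_add_cancel h] at h1
          exact not_lt.1 h1
      exact (hleg j).2 k h1 h2 hs i hi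

/-- `a` and `b` are equal after deleting finite initial parts (of any lengths). -/
def TailEq (a b : ℕ → Bool) : Prop := ∃ u v, ∀ k, a (u + k) = b (v + k)

theorem TailEq.symm {a b : ℕ → Bool} (h : TailEq a b) : TailEq b a := by
  obtain ⟨u, v, h⟩ := h
  exact ⟨v, u, fun k => (h k).symm⟩

theorem run_tail {s s' : ℕ → Bool} {u v : ℕ} (h : ∀ k, s (u + k) = s' (v + k)) (k j : ℕ)
    (hj : j < k) (hs : s (u + j) = true) : run s (u + k) = run s' (v + k) := by
  induction k with
  | zero => omega
  | succ k ih =>
    rw [← add_assoc, ← add_assoc, run, run, ← h k]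
    by_cases hk : s (u + k) = true
    · rw [if_pos hk, if_pos hk]
    · rw [if_neg hk, if_neg hk, ih]
      have : j ≠ k := by
        rintro rfl
        exact hk hs
      omega

theorem RConv.tail {i : ℕ} {b : Bool} {s s' : ℕ → Bool} (h : TailEq s s') (hc : RConv i b s) :
    RConv i b s' := by
  obtain ⟨u, v, h⟩ := h
  obtain ⟨h1, h2⟩ := hc
  obtain ⟨K, hK⟩ := eventually_atTop.1 h2
  obtain ⟨k0, hk0, hk1⟩ := (h1.and_eventually (eventually_ge_atTop u)).exists
  refine ⟨?_, ?_⟩
  · rw [frequently_atTop] at h1 ⊢
    intro N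
    obtain ⟨k, hk, hs⟩ := h1 (u + N)
    refine ⟨v + (k - u), by omega, ?_⟩
    rw [← h, Nat.add_sub_cancel' (by omega)]
    exact hs
  · refine eventually_atTop.2 ⟨v + (max K (k0 + 1)), fun k hk hs => ?_⟩
    obtain ⟨k', rfl⟩ := Nat.exists_eq_add_of_le (show v ≤ k by omega)
    have h3 : s (u + k') = true := by rw [h]; exact hs
    have h4 := hK (u + k') (by omega) h3
    have h5 : run s (u + k') = run s' (v + k') := by
      refine run_tail h k' (k0 - u) (by omega) ?_
      rw [Nat.add_sub_cancel' hk1]
      exact hk0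
    unfold wd at h4 ⊢
    rw [← h5]
    exact h4

theorem star_tail {A : Set (ℕ → Bool)} {x y : ℕ → Bool}
    (h0 : TailEq (fun k => x (2 * k)) fun k => y (2 * k))
    (h1 : TailEq (fun k => x (2 * k + 1)) fun k => y (2 * k + 1)) (hx : x ∈ StarSet rs rs A) :
    y ∈ StarSet rs rs A := by
  rcases hx with ⟨i, h2, h3, h4⟩ | ⟨α, β, h2, h3, h4⟩
  · refine Or.inl ⟨i, ?_, fun j hj => ?_, fun j hj => ?_⟩
    · rintro ⟨b, hb⟩
      exact h2 ⟨b, RConv.tail h1.symm hb⟩
    · obtain ⟨b, hb⟩ := h3 j hj
      exact ⟨b, RConv.tail h1 hb⟩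
    · obtain ⟨b, hb⟩ := h4 j hj
      exact ⟨b, RConv.tail h0 hb⟩
  · exact Or.inr ⟨α, β, fun i => RConv.tail h0 (h2 i), fun i => RConv.tail h1 (h3 i), h4⟩

end Pool.Agent.R620.TD
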